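import Pool.Agent.H531R2.AlgPoly

/-!
# Evaluation of circuits at very high powers
-/

set_option autoImplicit false

namespace Pool.Agent.Y632.LC

open MvPolynomial Pool.Agent.NPC Pool.Agent.H531R2

/-- Repeated squaring. -/
def sqs (q y s : ℕ) : ℕ := (fun x => x * x % (q + 1))^[s] (y % (q + 1))

theorem iter_le (q s : ℕ) {y : ℕ} (hy : y ≤ q) : (fun x => x * x % (q + 1))^[s] y ≤ q := by
  induction s generalizing y with
  | zero => exact hy
  | succ s ih =>
    rw [Function.iterate_succ_apply]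
    exact ih (Nat.lt_succ_iff.1 (Nat.mod_lt _ (Nat.succ_pos q)))

theorem iter_cast (q s y : ℕ) : ((((fun x => x * x % (q + 1))^[s] y : ℕ)) : ZMod (q + 1)) =
    (y : ZMod (q + 1)) ^ 2 ^ s := by
  induction s generalizing y with
  | zero => rw [pow_zero, pow_one]; rfl
  | succ s ih =>
    rw [Function.iterate_succ_apply, ih, ZMod.natCast_mod, Nat.cast_mul, ← sq, ← pow_mul,
      pow_succ' 2 s]

theorem sqs_cast (q y s : ℕ) : ((sqs q y s : ℕ) : ZMod (q + 1)) = (y : ZMod (q + 1)) ^ 2 ^ s := by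
  rw [sqs, iter_cast, ZMod.natCast_mod]

/-- The value of a gate. -/
def gvL (q h y : ℕ) (C : List Gate) (l : List ℕ) (c : ℕ × ℕ × ℕ) : ℕ :=
  if c.1 = 0 then 0 else if c.1 = 1 then 1 else if c.1 = 2 then sqs q y (h * idx C c.2.1)
  else if c.1 = 3 then l.getD c.2.1 0 + l.getD c.2.2 0
  else if c.1 = 4 then l.getD c.2.1 0 + (q + 1 - l.getD c.2.2 0)
  else l.getD c.2.1 0 * l.getD c.2.2 0

/-- The values of all gates modulo `q + 1`. -/
def nvalsL (q h y : ℕ) (C : List Gate) : List ℕ :=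
  C.foldl (fun l g => l ++ [gvL q h y C l g.code % (q + 1)]) []

/-- The value of the circuit modulo `q + 1`. -/
def nlastL (q h y : ℕ) (C : List Gate) : ℕ := ((nvalsL q h y C).reverse.head?).getD 0

/-- The test. -/
def testL (h : ℕ) (P R : List ℕ) (E : ℕ) (C : List Gate) : Bool :=
  wfB C && P.all fun p => R.all fun y => decide (nlastL ((p + 2) ^ E - 1) h y C = 0)

/-- The point used by the algorithm. -/
def ptL (C : List Gate) (h y : ℕ) (j : ℕ) : ℤ := (y : ℤ) ^ 2 ^ (h * idx C j)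

theorem gvL_cast (q h y : ℕ) (C : List Gate) (l : List ℕ) (hl : ∀ z ∈ l, z ≤ q) (g : Gate) :
    ((gvL q h y C l g.code : ℕ) : ZMod (q + 1))
      = g.val (fun j => ((ptL C h y j : ℤ) : ZMod (q + 1)))
        (l.map (fun z : ℕ => (z : ZMod (q + 1)))) := by
  cases g with
  | zero =>
    change ((0 : ℕ) : ZMod (q + 1)) = 0
    simp
  | one =>
    change ((1 : ℕ) : ZMod (q + 1)) = 1
    simp
  | var j =>
    change ((sqs q y (h * idx C j) : ℕ) : ZMod (q + 1)) = ((ptL C h y j : ℤ) : ZMod (q + 1))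
    rw [sqs_cast, ptL, Int.cast_pow, Int.cast_natCast]
  | add a b =>
    change ((l.getD a 0 + l.getD b 0 : ℕ) : ZMod (q + 1)) = _
    rw [Gate.val, Nat.cast_add, getD_map_cast, getD_map_cast]
  | sub a b =>
    change ((l.getD a 0 + (q + 1 - l.getD b 0) : ℕ) : ZMod (q + 1)) = _
    have h1 : l.getD b 0 ≤ q + 1 := (getD_le hl b).trans (Nat.le_succ q)
    rw [Gate.val, Nat.cast_add, Nat.cast_sub h1, getD_map_cast, getD_map_cast, ZMod.natCast_self]
    ring
  | mul a b =>
    change ((l.getD a 0 * l.getD b 0 : ℕ) : ZMod (q + 1)) = _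
    rw [Gate.val, Nat.cast_mul, getD_map_cast, getD_map_cast]

theorem foldl_nvalsL_le (q h y : ℕ) (C C' : List Gate) : ∀ l : List ℕ, (∀ z ∈ l, z ≤ q) →
    ∀ z ∈ C'.foldl (fun l g => l ++ [gvL q h y C l g.code % (q + 1)]) l, z ≤ q := by
  induction C' with
  | nil => intro l hl; exact hl
  | cons g C' ih =>
    intro l hl
    rw [List.foldl_cons]
    apply ih
    intro z hz
    rw [List.mem_append, List.mem_singleton] at hz
    rcases hz with hz | hz
    · exact hl z hz
    · rw [hz]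
      exact Nat.lt_succ_iff.1 (Nat.mod_lt _ (Nat.succ_pos q))

theorem foldl_nvalsL_cast (q h y : ℕ) (C C' : List Gate) : ∀ l : List ℕ,
    (∀ z ∈ l, z ≤ q) →
    (C'.foldl (fun l g => l ++ [gvL q h y C l g.code % (q + 1)]) l).map
      (fun z : ℕ => (z : ZMod (q + 1)))
    = C'.foldl (fun l g => l ++ [g.val (fun j => ((ptL C h y j : ℤ) : ZMod (q + 1))) l])
      (l.map (fun z : ℕ => (z : ZMod (q + 1)))) := by
  induction C' with
  | nil => intro l _; rfl
  | cons g C' ih =>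
    intro l hl
    rw [List.foldl_cons, List.foldl_cons, ih]
    · rw [List.map_append, List.map_cons, List.map_nil, ZMod.natCast_mod, gvL_cast q h y C l hl]
    · exact foldl_nvalsL_le q h y C [g] l hl

theorem foldl_nvalsL_length (q h y : ℕ) (C C' : List Gate) : ∀ l : List ℕ,
    (C'.foldl (fun l g => l ++ [gvL q h y C l g.code % (q + 1)]) l).length =
      l.length + C'.length := by
  induction C' with
  | nil => intro l; rfl
  | cons g C' ih =>
    intro l
    rw [List.foldl_cons, ih]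
    simp
    omega

theorem nlastL_cast (q h y : ℕ) (C : List Gate) :
    ((nlastL q h y C : ℕ) : ZMod (q + 1))
      = cval (fun j => ((ptL C h y j : ℤ) : ZMod (q + 1))) C := by
  have h1 := foldl_nvalsL_cast q h y C C [] (by simp)
  rw [List.map_nil] at h1
  rw [nlastL, cval, vals, ← h1, List.getLastD_eq_getLast?, List.getLast?_map,
    ← List.head?_reverse]
  change _ = (Option.map _ ((nvalsL q h y C).reverse.head?)).getD 0
  cases (nvalsL q h y C).reverse.head? <;> simp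

theorem nlastL_le (q h y : ℕ) (C : List Gate) : nlastL q h y C ≤ q := by
  rw [nlastL]
  cases h0 : (nvalsL q h y C).reverse.head? with
  | none => simp
  | some z =>
    have h1 := List.mem_of_mem_head? (Option.mem_def.2 h0)
    rw [List.mem_reverse] at h1
    exact foldl_nvalsL_le q h y C C [] (by simp) z h1

/-- The test of one point is the divisibility of the value of the polynomial. -/
theorem nlastL_eq_zero_iff (q h y : ℕ) (C : List Gate) :
    nlastL q h y C = 0 ↔ ((q + 1 : ℕ) : ℤ) ∣ eval (ptL C h y) (cpoly C) := by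
  rw [← ZMod.intCast_zmod_eq_zero_iff_dvd, eval_cpoly]
  have h1 := map_cval (Int.castRingHom (ZMod (q + 1))) (ptL C h y) C
  simp only [eq_intCast] at h1
  rw [h1, ← nlastL_cast, ZMod.natCast_eq_zero_iff]
  constructor
  · intro h; rw [h]; exact dvd_zero _
  · intro h0
    exact Nat.eq_zero_of_dvd_of_lt h0 (Nat.lt_succ_iff.2 (nlastL_le q h y C))

/-- The test accepts all circuits of the zero polynomial. -/
theorem testL_of_zero (h : ℕ) (P R : List ℕ) (E : ℕ) (C : List Gate) (hC : WF C)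
    (h0 : cpoly C = 0) : testL h P R E C = true := by
  rw [testL, Bool.and_eq_true, (wfB_iff C).2 hC, List.all_eq_true]
  refine ⟨rfl, fun p _ => ?_⟩
  rw [List.all_eq_true]
  intro y _
  rw [decide_eq_true_eq, nlastL_eq_zero_iff, h0, map_zero]
  exact dvd_zero _

/-! ### Running time -/

variable {α : Type} [TEnc α]

theorem poly_sqs {q y s : α → ℕ} (hq : NPC.Poly q) (hy : NPC.Poly y) (hs : UPoly s) :
    NPC.Poly (fun a => sqs (q a) (y a) (s a)) := by
  obtain ⟨r, hr⟩ := hq.sz_le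
  have h1 : NPC.Poly (fun a => q a + 1) := NPC.Poly.add hq (NPC.Poly.const 1)
  have h2 : NPC.Poly (fun p : α × ℕ => p.2 * p.2 % (q p.1 + 1)) :=
    NPC.Poly.mod (NPC.Poly.mul (NPC.Poly.snd NPC.Poly.id) (NPC.Poly.snd NPC.Poly.id))
      (h1.comp (NPC.Poly.fst NPC.Poly.id))
  refine (NPC.Poly.iterLen (l := fun a => List.replicate (s a) ())
    (s := fun a => y a % (q a + 1)) (F := fun a x => x * x % (q a + 1)) hs
    (NPC.Poly.mod hy h1) h2 (Polynomial.C 2 * r) ?_).congr fun a => ?_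
  · intro a k _
    have h3 := iter_le (q a) k (y := y a % (q a + 1))
      (Nat.lt_succ_iff.1 (Nat.mod_lt _ (Nat.succ_pos _)))
    have h4 := sz_nat_mono_le h3
    have h5 := hr a
    simp only [Polynomial.eval_mul, Polynomial.eval_C]
    omega
  · rw [List.length_replicate]
    rfl

theorem poly_gvL {q h y : α → ℕ} {C : α → List Gate} {l : α → List ℕ}
    {c : α → ℕ × ℕ × ℕ} (hq : NPC.Poly q) (hh : UPoly h) (hy : NPC.Poly y) (hC : NPC.Poly C)
    (hl : NPC.Poly l) (hc : NPC.Poly c) :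
    NPC.Poly (fun a => gvL (q a) (h a) (y a) (C a) (l a) (c a)) := by
  have h1 : NPC.Poly (fun a => (c a).1) := NPC.Poly.fst hc
  have h2 : NPC.Poly (fun a => (c a).2.1) := NPC.Poly.fst (NPC.Poly.snd hc)
  have h3 : NPC.Poly (fun a => (c a).2.2) := NPC.Poly.snd (NPC.Poly.snd hc)
  have e : ∀ k : ℕ, NPC.Poly (fun a => decide ((c a).1 = k)) := fun k =>
    NPC.Poly.decide_eq h1 (NPC.Poly.const k)
  have ga : NPC.Poly (fun a => (l a).getD (c a).2.1 0) := NPC.Poly.getD hl h2 (NPC.Poly.const 0)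
  have gb : NPC.Poly (fun a => (l a).getD (c a).2.2 0) := NPC.Poly.getD hl h3 (NPC.Poly.const 0)
  have f5 := NPC.Poly.mul ga gb
  have f4 := NPC.Poly.add ga (NPC.Poly.sub (NPC.Poly.add hq (NPC.Poly.const 1)) gb)
  have f3 := NPC.Poly.add ga gb
  have f2 := poly_sqs hq hy (UPoly.mul hh (uPoly_idx hC h2))
  have g4 := NPC.Poly.ite (e 4) f4 f5
  have g3 := NPC.Poly.ite (e 3) f3 g4
  have g2 := NPC.Poly.ite (e 2) f2 g3
  have g1 := NPC.Poly.ite (e 1) (NPC.Poly.const 1) g2
  exact NPC.Poly.ite (e 0) (NPC.Poly.const 0) g1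

theorem poly_nvalsL {q h y : α → ℕ} {C : α → List Gate} (hq : NPC.Poly q) (hh : UPoly h)
    (hy : NPC.Poly y) (hC : NPC.Poly C) :
    NPC.Poly (fun a => nvalsL (q a) (h a) (y a) (C a)) := by
  obtain ⟨r, hr⟩ := hq.sz_le
  obtain ⟨r', hr'⟩ := hC.sz_le
  unfold nvalsL
  refine NPC.Poly.foldl
    (F := fun a l g => l ++ [gvL (q a) (h a) (y a) (C a) l g.code % (q a + 1)]) hC
    (NPC.Poly.const []) ?_ (r' * (Polynomial.C 2 * r + Polynomial.C 1) + Polynomial.C 1) ?_
  · have h1 : NPC.Poly (fun p : α × List ℕ × Gate => p.2.1) :=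
      NPC.Poly.fst (NPC.Poly.snd NPC.Poly.id)
    have h2 : NPC.Poly (fun p : α × List ℕ × Gate => p.2.2.code) :=
      poly_code (NPC.Poly.snd (NPC.Poly.snd NPC.Poly.id))
    have h3 : NPC.Poly (fun p : α × List ℕ × Gate => q p.1) := hq.comp (NPC.Poly.fst NPC.Poly.id)
    have h4 : NPC.Poly (fun p : α × List ℕ × Gate => y p.1) := hy.comp (NPC.Poly.fst NPC.Poly.id)
    have h5 : NPC.Poly (fun p : α × List ℕ × Gate => C p.1) := hC.comp (NPC.Poly.fst NPC.Poly.id)
    have h8 : UPoly (fun p : α × List ℕ × Gate => h p.1) := hh.comp (NPC.Poly.fst NPC.Poly.id)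
    have h6 := poly_gvL h3 h8 h4 h5 h1 h2
    have h7 := NPC.Poly.mod h6 (NPC.Poly.add h3 (NPC.Poly.const 1))
    exact NPC.Poly.append h1 (NPC.Poly.cons h7 (NPC.Poly.const []))
  · intro a k hk
    have h1 := foldl_nvalsL_le (q a) (h a) (y a) (C a) ((C a).take k) [] (by simp)
    have h2 := foldl_nvalsL_length (q a) (h a) (y a) (C a) ((C a).take k) []
    have h3 := sz_le_length_mul _ (2 * sz (q a)) (fun z hz => sz_nat_mono_le (h1 z hz))
    have h4 := length_lt_sz (C a)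
    have h5 := hr' a
    have h6 := hr a
    rw [h2, List.length_nil, zero_add, List.length_take] at h3
    simp only [Polynomial.eval_add, Polynomial.eval_mul, Polynomial.eval_C]
    refine h3.trans ?_
    have h7 : min k (C a).length ≤ r'.eval (sz a) := by omega
    have h8 : min k (C a).length * (2 * sz (q a) + 1)
        ≤ r'.eval (sz a) * (2 * r.eval (sz a) + 1) := Nat.mul_le_mul h7 (by omega)
    omega

theorem poly_nlastL {q h y : α → ℕ} {C : α → List Gate} (hq : NPC.Poly q) (hh : UPoly h)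
    (hy : NPC.Poly y) (hC : NPC.Poly C) :
    NPC.Poly (fun a => nlastL (q a) (h a) (y a) (C a)) := by
  have h1 := poly_nvalsL hq hh hy hC
  have h2 := NPC.Poly.head? (NPC.Poly.reverse h1)
  exact NPC.Poly.optGetD (g := fun _ => 0) h2 (NPC.Poly.const 0)

theorem poly_testL {h : α → ℕ} {P R : α → List ℕ} {E : α → ℕ} {C : α → List Gate}
    (hh : UPoly h) (hP : NPC.Poly P) (hR : NPC.Poly R) (hE : UPoly E) (hC : NPC.Poly C) :
    NPC.Poly (fun a => testL (h a) (P a) (R a) (E a) (C a)) := by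
  have h1 : NPC.Poly (fun p : α × ℕ => R p.1) := hR.comp (NPC.Poly.fst NPC.Poly.id)
  have h2 : NPC.Poly (fun p : (α × ℕ) × ℕ => p.1.2 + 2) :=
    NPC.Poly.add (NPC.Poly.snd (NPC.Poly.fst NPC.Poly.id)) (NPC.Poly.const 2)
  have h3 : UPoly (fun p : (α × ℕ) × ℕ => E p.1.1) :=
    hE.comp (NPC.Poly.fst (NPC.Poly.fst NPC.Poly.id))
  have h3' : UPoly (fun p : (α × ℕ) × ℕ => h p.1.1) :=
    hh.comp (NPC.Poly.fst (NPC.Poly.fst NPC.Poly.id))
  have h4 : NPC.Poly (fun p : (α × ℕ) × ℕ => C p.1.1) :=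
    hC.comp (NPC.Poly.fst (NPC.Poly.fst NPC.Poly.id))
  have h5 : NPC.Poly (fun p : (α × ℕ) × ℕ => (p.1.2 + 2) ^ E p.1.1 - 1) :=
    NPC.Poly.sub (NPC.Poly.npow h2 h3) (NPC.Poly.const 1)
  have h6 : NPC.Poly (fun p : (α × ℕ) × ℕ =>
      nlastL ((p.1.2 + 2) ^ E p.1.1 - 1) (h p.1.1) p.2 (C p.1.1)) :=
    poly_nlastL h5 h3' (NPC.Poly.snd NPC.Poly.id) h4
  have h7 : NPC.Poly (fun p : (α × ℕ) × ℕ =>
      decide (nlastL ((p.1.2 + 2) ^ E p.1.1 - 1) (h p.1.1) p.2 (C p.1.1) = 0)) :=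
    NPC.Poly.decide_eq h6 (NPC.Poly.const 0)
  have h8 : NPC.Poly (fun p : α × ℕ => (R p.1).all fun y =>
      decide (nlastL ((p.2 + 2) ^ E p.1 - 1) (h p.1) y (C p.1) = 0)) :=
    NPC.Poly.all (p := fun (p : α × ℕ) y =>
      decide (nlastL ((p.2 + 2) ^ E p.1 - 1) (h p.1) y (C p.1) = 0)) h1 h7
  have h9 : NPC.Poly (fun a => (P a).all fun p => (R a).all fun y =>
      decide (nlastL ((p + 2) ^ E a - 1) (h a) y (C a) = 0)) :=
    NPC.Poly.all (p := fun a p => (R a).all fun y =>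
      decide (nlastL ((p + 2) ^ E a - 1) (h a) y (C a) = 0)) hP h8
  exact NPC.Poly.and (poly_wfB hC) h9

end Pool.Agent.Y632.LC
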