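import Mathlib
import Pool.Agent.H531R2.Hyp
import Pool.Agent.H531R2.Subst

/-!
# Sparse polynomials of exponential degree
-/

set_option autoImplicit false

namespace Pool.Agent.Y632.LC

open MvPolynomial Pool.Agent.H531R2

variable {v : ℕ} {t D : ℕ}

/-- The number of monomials is at most `(t + 2) ^ c`, the degree is at most `c * 2 ^ (D + 1)` and
the absolute values of the coefficients add up to at most `2 ^ ((D + 1) * c)`. -/
def Sp (t D c : ℕ) (f : MvPolynomial (Fin v) ℤ) : Prop :=
  f.support.card ≤ (t + 2) ^ c ∧ f.totalDegree ≤ c * 2 ^ (D + 1) ∧ nrm f ≤ 2 ^ ((D + 1) * c)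

variable {c e : ℕ} {f g : MvPolynomial (Fin v) ℤ}

theorem Sp.mono (h : Sp t D c f) (hce : c ≤ e) : Sp t D e f :=
  ⟨h.1.trans (Nat.pow_le_pow_right (by omega) hce), h.2.1.trans (Nat.mul_le_mul_right _ hce),
    h.2.2.trans (Nat.pow_le_pow_right (by norm_num) (Nat.mul_le_mul_left _ hce))⟩

theorem Sp.zero (c : ℕ) : Sp t D c (0 : MvPolynomial (Fin v) ℤ) := ⟨by simp, by simp, by simp⟩

theorem Sp.one (c : ℕ) : Sp t D c (1 : MvPolynomial (Fin v) ℤ) := by
  refine ⟨?_, by simp, nrm_one.trans Nat.one_le_two_pow⟩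
  have h1 : (1 : MvPolynomial (Fin v) ℤ).support.card ≤ 1 := by
    have : (1 : MvPolynomial (Fin v) ℤ) = monomial 0 1 := rfl
    rw [this]
    exact (Finset.card_le_card support_monomial_subset).trans (by simp)
  exact h1.trans (Nat.one_le_pow _ _ (by omega))

theorem Sp.C {z : ℤ} (h : z.natAbs ≤ 2 ^ ((D + 1) * c)) :
    Sp t D c (C z : MvPolynomial (Fin v) ℤ) := by
  refine ⟨?_, by rw [totalDegree_C]; exact Nat.zero_le _, (nrm_C z).trans h⟩
  have h1 : (MvPolynomial.C z : MvPolynomial (Fin v) ℤ).support.card ≤ 1 := by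
    have : (MvPolynomial.C z : MvPolynomial (Fin v) ℤ) = monomial 0 z := rfl
    rw [this]
    exact (Finset.card_le_card support_monomial_subset).trans (by simp)
  exact h1.trans (Nat.one_le_pow _ _ (by omega))

theorem Sp.natCast {z : ℕ} (h : z ≤ 2 ^ D) : Sp t D 1 ((z : ℕ) : MvPolynomial (Fin v) ℤ) := by
  have : ((z : ℕ) : MvPolynomial (Fin v) ℤ) = MvPolynomial.C (z : ℤ) := by simp
  rw [this]
  apply Sp.C
  rw [Int.natAbs_natCast]
  exact h.trans (Nat.pow_le_pow_right (by norm_num) (by omega))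

theorem Sp.neg (h : Sp t D c f) : Sp t D c (-f) := by
  obtain ⟨h1, h2, h3⟩ := h
  refine ⟨?_, ?_, ?_⟩
  · rw [support_neg]
    exact h1
  · rw [totalDegree_neg]
    exact h2
  · rw [nrm_neg]
    exact h3

theorem pow_add_pow_le {b c e : ℕ} (hb : 2 ≤ b) : b ^ c + b ^ e ≤ b ^ (c + e + 1) := by
  have h1 : b ^ c ≤ b ^ (c + e) := Nat.pow_le_pow_right (by omega) (by omega)
  have h2 : b ^ e ≤ b ^ (c + e) := Nat.pow_le_pow_right (by omega) (by omega)
  rw [pow_succ]
  nlinarith [Nat.zero_le (b ^ (c + e))]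

theorem Sp.add (hf : Sp t D c f) (hg : Sp t D e g) : Sp t D (c + e + 1) (f + g) := by
  classical
  obtain ⟨a1, a2, a3⟩ := hf
  obtain ⟨b1, b2, b3⟩ := hg
  refine ⟨?_, ?_, ?_⟩
  · refine (Finset.card_le_card support_add).trans ((Finset.card_union_le _ _).trans ?_)
    exact (Nat.add_le_add a1 b1).trans (pow_add_pow_le (by omega))
  · refine (totalDegree_add _ _).trans (max_le ?_ ?_)
    · exact a2.trans (Nat.mul_le_mul_right _ (by omega))
    · exact b2.trans (Nat.mul_le_mul_right _ (by omega))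
  · refine (nrm_add _ _).trans ((Nat.add_le_add a3 b3).trans ?_)
    rw [pow_mul, pow_mul, pow_mul]
    refine pow_add_pow_le ?_
    calc 2 = 2 ^ 1 := rfl
      _ ≤ 2 ^ (D + 1) := Nat.pow_le_pow_right (by norm_num) (by omega)

theorem Sp.sub (hf : Sp t D c f) (hg : Sp t D e g) : Sp t D (c + e + 1) (f - g) := by
  rw [sub_eq_add_neg]
  exact hf.add hg.neg

theorem card_support_mul_le (f g : MvPolynomial (Fin v) ℤ) :
    (f * g).support.card ≤ f.support.card * g.support.card := by
  classical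
  refine (Finset.card_le_card (support_mul f g)).trans ?_
  exact Finset.card_add_le

theorem Sp.mul (hf : Sp t D c f) (hg : Sp t D e g) : Sp t D (c + e) (f * g) := by
  obtain ⟨a1, a2, a3⟩ := hf
  obtain ⟨b1, b2, b3⟩ := hg
  refine ⟨?_, ?_, ?_⟩
  · rw [pow_add]
    exact (card_support_mul_le f g).trans (Nat.mul_le_mul a1 b1)
  · refine (totalDegree_mul _ _).trans ?_
    rw [Nat.add_mul]
    exact Nat.add_le_add a2 b2
  · rw [Nat.mul_add, pow_add]
    exact (nrm_mul _ _).trans (Nat.mul_le_mul a3 b3)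

theorem Sp.pow (hf : Sp t D c f) (k : ℕ) : Sp t D (k * c) (f ^ k) := by
  induction k with
  | zero =>
    rw [pow_zero]
    exact Sp.one _
  | succ k ih =>
    rw [pow_succ, Nat.succ_mul]
    exact ih.mul hf

theorem Sp.sum {ι : Type} (s : Finset ι) {f : ι → MvPolynomial (Fin v) ℤ}
    (h : ∀ i ∈ s, Sp t D c (f i)) : Sp t D (s.card * (c + 1)) (∑ i ∈ s, f i) := by
  classical
  induction s using Finset.induction_on with
  | empty =>
    rw [Finset.sum_empty]
    exact Sp.zero _
  | insert a s ha ih =>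
    rw [Finset.sum_insert ha, Finset.card_insert_of_notMem ha]
    refine ((h a (Finset.mem_insert_self _ _)).add
      (ih fun i hi => h i (Finset.mem_insert_of_mem hi))).mono ?_
    rw [Nat.succ_mul]
    omega

theorem Sp.prod {ι : Type} (s : Finset ι) {f : ι → MvPolynomial (Fin v) ℤ}
    (h : ∀ i ∈ s, Sp t D c (f i)) : Sp t D (s.card * c) (∏ i ∈ s, f i) := by
  classical
  induction s using Finset.induction_on with
  | empty =>
    rw [Finset.prod_empty]
    exact Sp.one _
  | insert a s ha ih =>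
    rw [Finset.prod_insert ha, Finset.card_insert_of_notMem ha]
    refine ((h a (Finset.mem_insert_self _ _)).mul
      (ih fun i hi => h i (Finset.mem_insert_of_mem hi))).mono ?_
    rw [Nat.succ_mul]
    omega

theorem Sp.det {r : ℕ} {M : Matrix (Fin r) (Fin r) (MvPolynomial (Fin v) ℤ)}
    (h : ∀ i j, Sp t D c (M i j)) : Sp t D (r.factorial * (r * c + 1)) M.det := by
  classical
  rw [Matrix.det_apply]
  have h1 := Sp.sum (t := t) (D := D) (c := r * c) (Finset.univ : Finset (Equiv.Perm (Fin r)))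
    (f := fun τ => Equiv.Perm.sign τ • ∏ i, M (τ i) i) (fun τ _ => by
      have h2 : Sp t D (r * c) (∏ i, M (τ i) i) := by
        have := Sp.prod (t := t) (D := D) (Finset.univ : Finset (Fin r))
          (f := fun i => M (τ i) i) (fun i _ => h _ _)
        rwa [Finset.card_univ, Fintype.card_fin] at this
      rcases Int.units_eq_one_or (Equiv.Perm.sign τ) with h | h
      · beta_reduce
        rw [h, one_smul]
        exact h2
      · beta_reduce
        rw [h, Units.neg_smul, one_smul]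
        exact h2.neg)
  rw [Finset.card_univ, Fintype.card_perm, Fintype.card_fin] at h1
  exact h1

theorem Sp.adjugate {r : ℕ} {M : Matrix (Fin r) (Fin r) (MvPolynomial (Fin v) ℤ)}
    (h : ∀ i j, Sp t D c (M i j)) (i j : Fin r) :
    Sp t D (r.factorial * (r * c + 1)) (M.adjugate i j) := by
  rw [Matrix.adjugate_apply]
  apply Sp.det
  intro i' j'
  by_cases h1 : i' = j
  · rw [h1, Matrix.updateRow_self]
    by_cases h2 : j' = i
    · rw [h2, Pi.single_eq_same]
      exact Sp.one c
    · rw [Pi.single_eq_of_ne h2]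
      exact Sp.zero c
  · rw [Matrix.updateRow_ne h1]
    exact h _ _

theorem Sp.matMul {r : ℕ} {M N : Matrix (Fin r) (Fin r) (MvPolynomial (Fin v) ℤ)}
    (hM : ∀ i j, Sp t D c (M i j)) (hN : ∀ i j, Sp t D e (N i j)) (i j : Fin r) :
    Sp t D (r * (c + e + 1)) ((M * N) i j) := by
  rw [Matrix.mul_apply]
  have h1 := Sp.sum (t := t) (D := D) (c := c + e) (Finset.univ : Finset (Fin r))
    (f := fun k => M i k * N k j) (fun k _ => (hM i k).mul (hN k j))
  rwa [Finset.card_univ, Fintype.card_fin] at h1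

/-- The weights are at most one. -/
theorem Sp.eul (h : Sp t D c f) {w : Fin v → ℕ} (hw : ∀ a, w a ≤ 1) :
    Sp t D (2 * c + 1) (Eul w f) := by
  obtain ⟨h1, h2, h3⟩ := h
  refine ⟨?_, ?_, ?_⟩
  · refine (Finset.card_le_card ?_).trans (h1.trans (Nat.pow_le_pow_right (by omega) (by omega)))
    intro m hm
    rw [mem_support_iff, coeff_Eul] at hm
    rw [mem_support_iff]
    exact right_ne_zero_of_mul hm
  · exact (totalDegree_Eul w f).trans (h2.trans (Nat.mul_le_mul_right _ (by omega)))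
  · refine (nrm_Eul w 1 hw f _ h2).trans ?_
    have hc : c ≤ 2 ^ c := Nat.lt_two_pow_self.le
    calc 1 * (c * 2 ^ (D + 1)) * nrm f ≤ 1 * (2 ^ c * 2 ^ (D + 1)) * 2 ^ ((D + 1) * c) := by
          gcongr
      _ = 2 ^ (c + (D + 1) + (D + 1) * c) := by rw [one_mul, ← pow_add, ← pow_add]
      _ ≤ 2 ^ ((D + 1) * (2 * c + 1)) := by
          refine Nat.pow_le_pow_right (by norm_num) ?_
          nlinarith [Nat.zero_le (D * c)]

end Pool.Agent.Y632.LC
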