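import Mathlib
import Pool.Agent.Y632.LC.Siz

/-!
# Classes of polynomials with sizes
-/

set_option autoImplicit false

namespace Pool.Agent.Y632.LC

open Pool.Agent.H531R2

/-- `P c f` means that `f` has size `c`. The sum of `n` elements of size `c` has size `S n c`. -/
structure Cls {R : Type} [CommRing R] (P : ℕ → R → Prop) (S : ℕ → ℕ → ℕ) : Prop where
  mono : ∀ {c e : ℕ} {f : R}, P c f → c ≤ e → P e f
  zero : P 0 0
  one : P 0 1
  nat : ∀ z : ℕ, P z (z : R)
  neg : ∀ {c : ℕ} {f : R}, P c f → P c (-f)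
  mul : ∀ {c e : ℕ} {f g : R}, P c f → P e g → P (c + e) (f * g)
  sum : ∀ {ι : Type} (s : Finset ι) {c : ℕ} {f : ι → R}, (∀ i ∈ s, P c (f i)) →
    P (S s.card c) (∑ i ∈ s, f i)
  smono : ∀ {a b c e : ℕ}, a ≤ b → c ≤ e → S a c ≤ S b e

section

variable {R : Type} [CommRing R] {P : ℕ → R → Prop} {S : ℕ → ℕ → ℕ} (h : Cls P S)

include h

theorem Cls.zero' (c : ℕ) : P c 0 := h.mono h.zero (Nat.zero_le _)

theorem Cls.one' (c : ℕ) : P c 1 := h.mono h.one (Nat.zero_le _)

theorem Cls.add {c e : ℕ} {f g : R} (hf : P c f) (hg : P e g) : P (S 2 (c + e)) (f + g) := by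
  have h1 := h.sum (Finset.univ : Finset (Fin 2)) (c := c + e) (f := ![f, g]) (by
    intro i _
    fin_cases i
    · exact h.mono hf (by omega)
    · exact h.mono hg (by omega))
  rwa [Finset.card_univ, Fintype.card_fin, Fin.sum_univ_two] at h1

theorem Cls.prod {r c : ℕ} {f : Fin r → R} (hf : ∀ i, P c (f i)) : P (r * c) (∏ i, f i) := by
  induction r with
  | zero =>
    rw [Fin.prod_univ_zero, zero_mul]
    exact h.one
  | succ r ih =>
    rw [Fin.prod_univ_succ, Nat.succ_mul, add_comm]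
    exact h.mul (hf 0) (ih fun i => hf i.succ)

theorem Cls.det {r c : ℕ} {M : Matrix (Fin r) (Fin r) R} (hM : ∀ i j, P c (M i j)) :
    P (S r.factorial (r * c)) M.det := by
  classical
  rw [Matrix.det_apply]
  have h1 := h.sum (c := r * c) (Finset.univ : Finset (Equiv.Perm (Fin r)))
    (f := fun τ => Equiv.Perm.sign τ • ∏ i, M (τ i) i) (fun τ _ => by
      have h2 : P (r * c) (∏ i, M (τ i) i) := h.prod fun i => hM _ _
      rcases Int.units_eq_one_or (Equiv.Perm.sign τ) with h3 | h3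
      · rw [h3, one_smul]
        exact h2
      · rw [h3, Units.neg_smul, one_smul]
        exact h.neg h2)
  rwa [Finset.card_univ, Fintype.card_perm, Fintype.card_fin] at h1

theorem Cls.adjugate {r c : ℕ} {M : Matrix (Fin r) (Fin r) R} (hM : ∀ i j, P c (M i j))
    (i j : Fin r) : P (S r.factorial (r * c)) (M.adjugate i j) := by
  rw [Matrix.adjugate_apply]
  apply h.det
  intro i' j'
  by_cases h1 : i' = j
  · rw [h1, Matrix.updateRow_self]
    by_cases h2 : j' = i
    · rw [h2, Pi.single_eq_same]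
      exact h.one' c
    · rw [Pi.single_eq_of_ne h2]
      exact h.zero' c
  · rw [Matrix.updateRow_ne h1]
    exact hM _ _

theorem Cls.matMul {a r b c e : ℕ} {M : Matrix (Fin a) (Fin r) R} {N : Matrix (Fin r) (Fin b) R}
    (hM : ∀ i j, P c (M i j)) (hN : ∀ i j, P e (N i j)) (i : Fin a) (j : Fin b) :
    P (S r (c + e)) ((M * N) i j) := by
  rw [Matrix.mul_apply]
  have h1 := h.sum (c := c + e) (Finset.univ : Finset (Fin r))
    (f := fun k => M i k * N k j) (fun k _ => h.mul (hM i k) (hN k j))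
  rwa [Finset.card_univ, Fintype.card_fin] at h1

theorem Cls.mulVec {a r c e : ℕ} {M : Matrix (Fin a) (Fin r) R} {x : Fin r → R}
    (hM : ∀ i j, P c (M i j)) (hx : ∀ i, P e (x i)) (i : Fin a) :
    P (S r (c + e)) (M.mulVec x i) := by
  rw [Matrix.mulVec, dotProduct]
  have h1 := h.sum (c := c + e) (Finset.univ : Finset (Fin r))
    (f := fun k => M i k * x k) (fun k _ => h.mul (hM i k) (hx k))
  rwa [Finset.card_univ, Fintype.card_fin] at h1

end

/-- The constant for powers of matrices. -/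
def mpC (S : ℕ → ℕ → ℕ) (r c : ℕ) : ℕ → ℕ
  | 0 => 0
  | i + 1 => mpC S r c i + S r (mpC S r c i + c)

theorem mpC_mono (S : ℕ → ℕ → ℕ) (r c : ℕ) {i j : ℕ} (hij : i ≤ j) :
    mpC S r c i ≤ mpC S r c j := by
  induction hij with
  | refl => exact le_rfl
  | step _ ih =>
    rw [mpC]
    omega

section

variable {R : Type} [CommRing R] {P : ℕ → R → Prop} {S : ℕ → ℕ → ℕ} (h : Cls P S)

include h

theorem Cls.matPow {r c : ℕ} {M : Matrix (Fin r) (Fin r) R} (hM : ∀ i j, P c (M i j)) {t d : ℕ}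
    (ht : t ≤ d) (i j : Fin r) : P (mpC S r c d) ((M ^ t) i j) := by
  refine h.mono ?_ (mpC_mono S r c ht)
  clear ht
  induction t generalizing i j with
  | zero =>
    rw [pow_zero, Matrix.one_apply]
    split_ifs
    · exact h.one' _
    · exact h.zero' _
  | succ t ih =>
    rw [pow_succ, mpC]
    exact h.mono (h.matMul (fun i j => ih i j) hM i j) (by omega)

theorem Cls.aeval {r c e d : ℕ} {M : Matrix (Fin r) (Fin r) R} (hM : ∀ i j, P c (M i j))
    {f : Polynomial R} (hd : f.natDegree ≤ d) (hf : ∀ i, P e (f.coeff i)) (i j : Fin r) :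
    P (S (d + 1) (e + mpC S r c d)) ((Polynomial.aeval M f) i j) := by
  rw [Polynomial.aeval_eq_sum_range, Matrix.sum_apply]
  refine h.mono (h.sum (c := e + mpC S r c d) _ fun t ht => ?_) (h.smono ?_ le_rfl)
  · rw [Matrix.smul_apply, smul_eq_mul]
    rw [Finset.mem_range] at ht
    exact h.mul (hf t) (h.matPow hM (by omega) i j)
  · rw [Finset.card_range]
    omega

end

/-- The constant for powers of polynomials. -/
def ppC (S : ℕ → ℕ → ℕ) (n c : ℕ) : ℕ → ℕ
  | 0 => 0
  | i + 1 => S (n + 1) (ppC S n c i + c)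

theorem Cls.polPow {R : Type} [CommRing R] {P : ℕ → R → Prop} {S : ℕ → ℕ → ℕ} (h : Cls P S)
    {f : Polynomial R} {c : ℕ} (hf : ∀ i, P c (f.coeff i)) {n : ℕ} (k : ℕ) {i : ℕ} (hi : i ≤ n) :
    P (ppC S n c k) ((f ^ k).coeff i) := by
  induction k generalizing i with
  | zero =>
    rw [pow_zero, Polynomial.coeff_one]
    split_ifs
    · exact h.one' _
    · exact h.zero' _
  | succ k ih =>
    rw [pow_succ, Polynomial.coeff_mul, ppC]
    refine h.mono (h.sum (c := ppC S n c k + c) _ fun x hx => ?_) (h.smono ?_ le_rfl)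
    · rw [Finset.HasAntidiagonal.mem_antidiagonal] at hx
      exact h.mul (ih (by omega)) (hf _)
    · rw [Finset.Nat.card_antidiagonal]
      omega

end Pool.Agent.Y632.LC
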