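import Mathlib
import Pool.Agent.H531R2.TameDefs

/-!
# Combinations of few products of powers and of entries of powers of matrices
-/

set_option autoImplicit false

namespace Pool.Agent.Y632.LC

open MvPolynomial Pool.Agent.H531R2

/-- `f` has at most `n` monomials, its degree is at most `2 ^ n` and the absolute values of its
coefficients add up to at most `2 ^ n`. -/
def Lac (n : ℕ) {v : ℕ} (f : MvPolynomial (Fin v) ℤ) : Prop :=
  f.support.card ≤ n ∧ f.totalDegree ≤ 2 ^ n ∧ nrm f ≤ 2 ^ n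

/-- `F` is a rational combination
`∑_{i < k} c_i g_i (∏_{j < k} f_j ^ e_ij) ∏_{l < k} (A_l ^ N_il)_{a_il, b_il}`
of `k` products of powers and of entries of powers of `k × k` matrices. The `g_i`, the `f_j` and
the entries of the matrices `A_l` are integer polynomials in `n` of the variables with `Lac n`, the
exponents `e_ij` and `N_il` are at most `2 ^ n`, and the `c_i` are arbitrary rational numbers. -/
def FewLac (k n : ℕ) (F : MvPolynomial ℕ ℚ) : Prop :=
  ∃ (σ : Fin n → ℕ) (g f : Fin k → MvPolynomial (Fin n) ℤ)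
    (A : Fin k → Matrix (Fin k) (Fin k) (MvPolynomial (Fin n) ℤ))
    (e N : Fin k → Fin k → ℕ) (a b : Fin k → Fin k → Fin k) (c : Fin k → ℚ),
    Function.Injective σ ∧ (∀ i, Lac n (g i)) ∧ (∀ j, Lac n (f j)) ∧
    (∀ l s t, Lac n (A l s t)) ∧ (∀ i j, e i j ≤ 2 ^ n) ∧ (∀ i l, N i l ≤ 2 ^ n) ∧
    F = rename σ (∑ i, C (c i) * map (Int.castRingHom ℚ)
      (g i * (∏ j, f j ^ e i j) * ∏ l, (A l ^ N i l) (a i l) (b i l)))

/-- `f` divides, over the rational numbers, a product of `n` nonzero polynomials with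
`FewLac k n`, and no power `p ^ (n + 1)` of a prime number `p > n` divides all coefficients of
`f`. -/
def TameLac (k n : ℕ) (f : MvPolynomial ℕ ℤ) : Prop :=
  (∀ p : ℕ, p.Prime → n < p → ¬ (C ((p : ℤ) ^ (n + 1)) ∣ f)) ∧
    ∃ F : Fin n → MvPolynomial ℕ ℚ, (∀ a, F a ≠ 0 ∧ FewLac k n (F a)) ∧
      map (Int.castRingHom ℚ) f ∣ ∏ a, F a

end Pool.Agent.Y632.LC
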