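import Mathlib
import Pool.Agent.TH423.SH.PSUb

/-!
# Pairs of primes `r`, `p` with `p = 1` modulo `r`
-/

set_option autoImplicit false

namespace Pool.Agent.Y632.LC

open Finset Filter H343E Pool.Agent.TH423.SH.PSUa

theorem pi1_eq (x : ℕ) : pi1 x = (Nat.primeCounting x : ℝ) := by
  rw [pi1, Nat.primeCounting, Nat.primeCounting', Nat.count_eq_card_filter_range]
  congr 2
  ext p
  simp only [mem_filter, mem_Icc, mem_range]
  constructor
  · rintro ⟨⟨_, h1⟩, h2⟩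
    exact ⟨by omega, h2⟩
  · rintro ⟨h1, h2⟩
    exact ⟨⟨h2.one_le, by omega⟩, h2⟩

/-- Chebyshev's lower bound. -/
theorem pi_lower {N : ℕ} (hN : 8 ≤ N) : (N : ℝ) / (4 * Real.log N) ≤ Nat.primeCounting N := by
  have h := Chebyshev.pi_ge N
  refine le_trans ?_ h
  have hN0 : (8 : ℝ) ≤ N := by exact_mod_cast hN
  have hlog : 0 < Real.log N := Real.log_pos (by linarith)
  rw [div_mul_eq_div_div, div_le_div_iff_of_pos_right hlog]
  have h1 : Real.log (N + 1) ≤ Real.log (2 * N) := Real.log_le_log (by linarith) (by linarith)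
  have h2 : Real.log (2 * N) = Real.log 8 + Real.log (N / 4) := by
    rw [← Real.log_mul (by norm_num) (by positivity)]
    congr 1; ring
  have h3 := Real.log_le_sub_one_of_pos (show (0 : ℝ) < N / 4 by linarith)
  have h4 : Real.log 8 = 3 * Real.log 2 := by
    rw [show (8 : ℝ) = 2 ^ 3 by norm_num, Real.log_pow]; norm_num
  have h5 := Real.log_two_gt_d9
  have h6 := Real.log_two_lt_d9
  nlinarith

theorem exists_log_bound : ∃ X : ℕ, ∀ Q : ℕ, X ≤ Q → 48 * Real.log Q ≤ Real.sqrt Q ∧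
    5 ≤ Real.log Q := by
  have h1 : ∀ᶠ x : ℝ in atTop, ‖Real.log x‖ ≤ (1 / 48) * ‖x ^ (1 / 2 : ℝ)‖ :=
    (isLittleO_log_rpow_atTop (by norm_num : (0 : ℝ) < 1 / 2)).bound (by norm_num)
  have h2 : ∀ᶠ x : ℝ in atTop, 5 ≤ Real.log x := Real.tendsto_log_atTop.eventually_ge_atTop 5
  have h3 := (tendsto_natCast_atTop_atTop (R := ℝ)).eventually (h1.and h2)
  obtain ⟨X, hX⟩ := eventually_atTop.1 h3
  refine ⟨X, fun Q hQ => ?_⟩
  obtain ⟨h4, h5⟩ := hX Q hQ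
  refine ⟨?_, h5⟩
  rw [Real.norm_eq_abs, Real.norm_eq_abs, abs_of_nonneg (by linarith),
    abs_of_nonneg (Real.rpow_nonneg (Nat.cast_nonneg Q) _), ← Real.sqrt_eq_rpow] at h4
  linarith

/-- There are many pairs of primes `r`, `p` with `p = 1` modulo `r`, `p ≤ Q ^ 3`, `r ≤ Q`,
`r ^ 2 > Q`. -/
theorem exists_primes : ∃ Q₀ : ℕ, ∀ Q : ℕ, Q₀ ≤ Q → ∀ T : Finset ℕ, T.card ^ 2 ≤ Q →
    ∀ bad : ℕ → Finset ℕ, (∀ r, (bad r).card ^ 2 ≤ Q ^ 3) →
    ∃ r p : ℕ, r.Prime ∧ p.Prime ∧ r ∉ T ∧ p ∉ bad r ∧ Q < r ^ 2 ∧ r ≤ Q ∧ p ≤ Q ^ 3 ∧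
      p ≡ 1 [MOD r] := by
  classical
  obtain ⟨X₁, hX₁⟩ := bvU 1 3
  obtain ⟨X₂, hX₂⟩ := exists_log_bound
  refine ⟨max (max X₁ X₂) 8, fun Q hQ T hT bad hbad => ?_⟩
  simp only [max_le_iff] at hQ
  obtain ⟨⟨hQ1, hQ2⟩, hQ8⟩ := hQ
  by_contra hcon
  push Not at hcon
  obtain ⟨hs, hL⟩ := hX₂ Q hQ2
  obtain ⟨L, hLdef⟩ : ∃ L, L = Real.log Q := ⟨_, rfl⟩
  obtain ⟨s, hsdef⟩ : ∃ s, s = Real.sqrt Q := ⟨_, rfl⟩
  rw [← hLdef, ← hsdef] at hs
  rw [← hLdef] at hL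
  have hL0 : 0 < L := by linarith
  have hs0 : 0 < s := by linarith
  have hQs : (Q : ℝ) = s ^ 2 := by
    rw [hsdef, Real.sq_sqrt (Nat.cast_nonneg Q)]
  have hQv : Q ≤ Q ^ 3 := Nat.le_self_pow (by norm_num) Q
  have hlogv : Real.log ((Q ^ 3 : ℕ) : ℝ) = 3 * L := by
    rw [Nat.cast_pow, Real.log_pow, hLdef]
    norm_num
  -- the sum of the errors
  have hBV := hX₁ (Q ^ 3) (hQ1.trans hQv) (Q ^ 3) le_rfl Q (by simp)
  rw [hlogv] at hBV
  obtain ⟨S, hS⟩ : ∃ S : Finset ℕ, S = (Icc 1 Q).filter (fun r => r.Prime ∧ Q < r ^ 2 ∧ r ∉ T) :=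
    ⟨_, rfl⟩
  have hsum : ∑ r ∈ S, ee (Q ^ 3) r ≤ ∑ q ∈ Icc 1 Q, ee (Q ^ 3) q := by
    refine sum_le_sum_of_subset_of_nonneg ?_ fun q _ _ => ee_nonneg _ _
    rw [hS]
    exact filter_subset _ _
  -- the number of moduli
  have hpiQ := pi_lower hQ8
  rw [← pi1_eq, ← hLdef] at hpiQ
  have hTc : (T.card : ℝ) ≤ s := by
    have h1 : ((T.card : ℝ)) ^ 2 ≤ s ^ 2 := by
      rw [← hQs]
      exact_mod_cast hT
    exact le_of_pow_le_pow_left₀ (by norm_num) hs0.le h1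
  have hsq : (((Icc 1 Q).filter (fun r => r ^ 2 ≤ Q)).card : ℝ) ≤ s := by
    have h1 : ((Icc 1 Q).filter (fun r => r ^ 2 ≤ Q)).card ≤ Nat.sqrt Q := by
      have h0 : (Icc 1 (Nat.sqrt Q)).card = Nat.sqrt Q := by
        rw [Nat.card_Icc, Nat.add_sub_cancel]
      rw [← h0]
      refine card_le_card fun r hr => ?_
      rw [mem_filter, mem_Icc] at hr
      rw [mem_Icc]
      exact ⟨hr.1.1, Nat.le_sqrt'.2 hr.2⟩
    have h2 : (Nat.sqrt Q : ℝ) ≤ s := by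
      rw [hsdef]
      exact Real.nat_sqrt_le_real_sqrt
    exact (Nat.cast_le.2 h1).trans h2
  have hScard : (Q : ℝ) / (8 * L) ≤ S.card := by
    have h1 : (Icc 1 Q).filter (fun p => p.Prime) ⊆
        S ∪ ((Icc 1 Q).filter (fun r => r ^ 2 ≤ Q) ∪ T) := by
      intro p hp
      rw [mem_filter] at hp
      rw [mem_union, mem_union, hS, mem_filter, mem_filter]
      by_cases h2 : p ∈ T
      · exact Or.inr (Or.inr h2)
      · rcases Nat.lt_or_ge Q (p ^ 2) with h3 | h3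
        · exact Or.inl ⟨hp.1, hp.2, h3, h2⟩
        · exact Or.inr (Or.inl ⟨hp.1, h3⟩)
    have h2 := (card_le_card h1).trans ((card_union_le _ _).trans
      (Nat.add_le_add_left (card_union_le _ _) _))
    have h3 : pi1 Q ≤ S.card + (((Icc 1 Q).filter (fun r => r ^ 2 ≤ Q)).card + T.card) := by
      rw [pi1]
      exact_mod_cast h2
    have h4 : (Q : ℝ) / (4 * L) - 2 * s ≤ S.card := by linarith
    refine le_trans ?_ h4
    have h5 : 2 * s ≤ (Q : ℝ) / (24 * L) := by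
      rw [le_div_iff₀ (by positivity), hQs]
      nlinarith
    have h6 : (Q : ℝ) / (8 * L) + (Q : ℝ) / (24 * L) ≤ (Q : ℝ) / (4 * L) := by
      have hQ0 : (0 : ℝ) ≤ Q := Nat.cast_nonneg Q
      have e1 : (Q : ℝ) / (4 * L) = (Q : ℝ) / (8 * L) + (Q : ℝ) / (8 * L) := by
        field_simp
        norm_num
      rw [e1]
      refine add_le_add le_rfl ?_
      apply div_le_div_of_nonneg_left hQ0 (by positivity)
      linarith
    linarith
  -- each error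
  have hpiv := pi_lower (N := Q ^ 3) (by omega)
  rw [← pi1_eq, hlogv] at hpiv
  have hee : ∀ r ∈ S, (Q : ℝ) ^ 2 / (16 * L) ≤ ee (Q ^ 3) r := by
    intro r hr
    rw [hS, mem_filter, mem_Icc] at hr
    obtain ⟨⟨hr1, hrQ⟩, hrp, hrQ2, hrT⟩ := hr
    refine le_trans ?_ (FF_le_ee (Q ^ 3) r 1 hrp.one_lt (Nat.coprime_one_left r))
    have h1 : piAP (Q ^ 3) r 1 ≤ s ^ 3 := by
      have h2 : piAP (Q ^ 3) r 1 ≤ (bad r).card := by
        rw [piAP]
        refine Nat.cast_le.2 (card_le_card fun p hp => ?_)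
        rw [mem_filter, mem_Icc] at hp
        by_contra hpb
        exact hcon r p hrp hp.2.1 hrT hpb hrQ2 hrQ hp.1.2 hp.2.2
      refine h2.trans ?_
      have h3 : (((bad r).card : ℝ)) ^ 2 ≤ (s ^ 3) ^ 2 := by
        have h4 : ((s ^ 3) ^ 2 : ℝ) = (Q : ℝ) ^ 3 := by
          rw [hQs]
          ring
        rw [h4]
        exact_mod_cast hbad r
      exact le_of_pow_le_pow_left₀ (by norm_num) (by positivity) h3
    have hφ0 : (0 : ℝ) < (Nat.totient r : ℝ) := by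
      exact_mod_cast Nat.totient_pos.2 hrp.pos
    have hφ : (Nat.totient r : ℝ) ≤ Q := by
      exact_mod_cast (Nat.totient_le r).trans hrQ
    have h2 : (Q : ℝ) ^ 2 / (12 * L) ≤ pi1 (Q ^ 3) / (Nat.totient r : ℝ) := by
      rw [le_div_iff₀ hφ0]
      calc (Q : ℝ) ^ 2 / (12 * L) * (Nat.totient r : ℝ) ≤ (Q : ℝ) ^ 2 / (12 * L) * Q := by
            gcongr
        _ = ((Q ^ 3 : ℕ) : ℝ) / (4 * (3 * L)) := by
            push_cast
            field_simp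
            ring
        _ ≤ _ := hpiv
    have h3 : s ^ 3 ≤ (Q : ℝ) ^ 2 / (48 * L) := by
      rw [le_div_iff₀ (by positivity), hQs]
      have : s ^ 3 * (48 * L) ≤ s ^ 3 * s := by
        apply mul_le_mul_of_nonneg_left hs (by positivity)
      calc s ^ 3 * (48 * L) ≤ s ^ 3 * s := this
        _ = (s ^ 2) ^ 2 := by ring
    have h4 : (Q : ℝ) ^ 2 / (16 * L) + (Q : ℝ) ^ 2 / (48 * L) = (Q : ℝ) ^ 2 / (12 * L) := by
      field_simp
      norm_num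
    rw [FF]
    have h5 := neg_abs_le (piAP (Q ^ 3) r 1 - pi1 (Q ^ 3) / (Nat.totient r : ℝ))
    linarith
  have hfin : (Q : ℝ) / (8 * L) * ((Q : ℝ) ^ 2 / (16 * L)) ≤
      ((Q ^ 3 : ℕ) : ℝ) / (3 * L) ^ 3 := by
    calc (Q : ℝ) / (8 * L) * ((Q : ℝ) ^ 2 / (16 * L))
        ≤ S.card * ((Q : ℝ) ^ 2 / (16 * L)) := by
          apply mul_le_mul_of_nonneg_right hScard
          positivity
      _ ≤ ∑ r ∈ S, ee (Q ^ 3) r := by
          rw [← nsmul_eq_mul]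
          exact card_nsmul_le_sum _ _ _ hee
      _ ≤ _ := hsum.trans hBV
  have hQ0 : (0 : ℝ) < Q := by
    have : (8 : ℝ) ≤ Q := by exact_mod_cast hQ8
    linarith
  have h1 : (Q : ℝ) ^ 3 * (27 * L ^ 3) ≤ (Q : ℝ) ^ 3 * (128 * L ^ 2) := by
    have h2 : (Q : ℝ) / (8 * L) * ((Q : ℝ) ^ 2 / (16 * L)) = (Q : ℝ) ^ 3 / (128 * L ^ 2) := by
      field_simp
      norm_num
    have h3 : ((Q ^ 3 : ℕ) : ℝ) / (3 * L) ^ 3 = (Q : ℝ) ^ 3 / (27 * L ^ 3) := by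
      push_cast
      congr 1
      ring
    rw [h2, h3, div_le_div_iff₀ (by positivity) (by positivity)] at hfin
    exact hfin
  have h2 : 27 * L ^ 3 ≤ 128 * L ^ 2 := le_of_mul_le_mul_left h1 (by positivity)
  nlinarith [pow_pos hL0 2]

end Pool.Agent.Y632.LC
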